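import Mathlib
import Pool.Agent.TH881.RK.Defs
import Pool.Agent.TH881.RK.DefsG
import Pool.Agent.TH881.RQ.Low
import Pool.Agent.TH111.J3812

/-! RK-S2: upper bound for the density of the lost vectors, Goldbach form. -/

set_option autoImplicit false

namespace Pool.Agent.TH9.J4027

open Finset Filter Topology
open Pool.Agent.TH881
open Pool.Agent.TH881.RG
open Pool.Agent.TH881.RQ
open Pool.Agent.TH881.RK
open Pool.Agent.H373R2.T7
open Pool.Agent.TH111.J3812 (cS cntk_eq mem_cS cntk_cls udk_le wk_ne_zero)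

/-- the expected number of arguments of a class is positive -/
lemma ppq_pos (pr : Bool) (w X : ℕ) (hX : 2 ≤ X) : 0 < ppq pr w X := by
  unfold ppq
  have h1 := AA_card_pos pr w
  have hXr : (2 : ℝ) ≤ X := by exact_mod_cast hX
  have h2 : 0 < Real.log (X : ℝ) := Real.log_pos (by linarith)
  apply div_pos (by linarith)
  apply mul_pos h1
  split_ifs
  · exact h2
  · exact one_pos

/-- the small arguments are negligible -/
lemma sqrt_negl (pr : Bool) (c κ : ℝ) (hc : 0 < c) (hκ : 0 < κ) : ∃ X0 : ℕ, ∀ X : ℕ, X0 ≤ X →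
    √(c * X) ≤ κ * tot pr X := by
  have hsc : 0 < √c := Real.sqrt_pos.2 hc
  have hlit := ((isLittleO_log_rpow_atTop (show (0 : ℝ) < 1 / 2 by norm_num)).bound
    (show 0 < κ / √c by positivity))
  have h5 := (tendsto_natCast_atTop_atTop (R := ℝ)).eventually (hlit.and (eventually_ge_atTop 3))
  obtain ⟨X3, h6⟩ := eventually_atTop.1 h5
  refine ⟨X3, fun X hX => ?_⟩
  obtain ⟨h9, hX3⟩ := h6 X hX
  have hX0 : (0 : ℝ) < X := by linarith
  have hL : 1 ≤ Real.log X := by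
    rw [Real.le_log_iff_exp_le hX0]
    have := Real.exp_one_lt_d9
    linarith
  have hs := Real.mul_self_sqrt hX0.le
  have hs0 := Real.sqrt_pos.2 hX0
  rw [Real.norm_of_nonneg (by linarith), Real.norm_of_nonneg (by positivity),
    ← Real.sqrt_eq_rpow] at h9
  have h10 : √c * Real.log X ≤ κ * √(X : ℝ) := by
    calc √c * Real.log X ≤ √c * (κ / √c * √(X : ℝ)) := mul_le_mul_of_nonneg_left h9 hsc.le
      _ = κ * √(X : ℝ) := by field_simp
  rw [Real.sqrt_mul hc.le]
  unfold tot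
  split_ifs
  · rw [← mul_div_assoc, le_div_iff₀ (by linarith)]
    calc √c * √(X : ℝ) * Real.log X = (√c * Real.log X) * √(X : ℝ) := by ring
      _ ≤ κ * √(X : ℝ) * √(X : ℝ) := mul_le_mul_of_nonneg_right h10 hs0.le
      _ = κ * (√(X : ℝ) * √(X : ℝ)) := by ring
      _ = _ := by rw [hs]
  · rw [div_one]
    calc √c * √(X : ℝ) = (√c * 1) * √(X : ℝ) := by ring
      _ ≤ (√c * Real.log X) * √(X : ℝ) :=
          mul_le_mul_of_nonneg_right (mul_le_mul_of_nonneg_left hL hsc.le) hs0.le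
      _ ≤ κ * √(X : ℝ) * √(X : ℝ) := mul_le_mul_of_nonneg_right h10 hs0.le
      _ = κ * (√(X : ℝ) * √(X : ℝ)) := by ring
      _ = _ := by rw [hs]

open Classical in
/-- the arguments of `A` in `(√(G X), X]` -/
noncomputable def KF (pr : Bool) (A : Set ℕ) (G X : ℕ) : Finset ℕ :=
  (KA pr A X).filter (fun n => G * X < n ^ 2)

lemma mem_KF {pr : Bool} {A : Set ℕ} {G X n : ℕ} :
    n ∈ KF pr A G X ↔ n ∈ KA pr A X ∧ G * X < n ^ 2 := by
  classical
  unfold KF
  rw [mem_filter]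

lemma KF_card (pr : Bool) (A : Set ℕ) (G : ℕ) (hG : 1 ≤ G) (β κ : ℝ) (hβ : 0 < β) (hβ1 : β ≤ 1)
    (hκ : 0 < κ) (hA : β ≤ relq pr A) :
    ∃ X0 : ℕ, ∀ X : ℕ, X0 ≤ X → (β - 3 * κ) * tot pr X ≤ (KF pr A G X).card := by
  classical
  obtain ⟨X1, h1⟩ := KA_card_ge pr A β κ hβ hβ1 hκ hA
  obtain ⟨X2, h2⟩ := sqrt_negl pr G κ (by exact_mod_cast hG) hκ
  refine ⟨X1 + X2, fun X hX => ?_⟩
  have h3 := h1 X (by omega)
  have h4 := h2 X (by omega)
  have h5 : KA pr A X ⊆ KF pr A G X ∪ Icc 1 ⌊√((G : ℝ) * X)⌋₊ := by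
    intro n hn
    rw [mem_union, mem_KF, mem_Icc]
    by_cases h6 : G * X < n ^ 2
    · exact Or.inl ⟨hn, h6⟩
    · right
      rw [mem_KA] at hn
      have h7 : (0 : ℝ) < n := lt_of_le_of_lt (Real.sqrt_nonneg _) hn.1.2.1
      refine ⟨by exact_mod_cast h7, Nat.le_floor ?_⟩
      apply Real.le_sqrt_of_sq_le
      rw [not_lt] at h6
      exact_mod_cast h6
  have h6 : (KA pr A X).card ≤ (KF pr A G X).card + ⌊√((G : ℝ) * X)⌋₊ := by
    refine (card_le_card h5).trans ((card_union_le _ _).trans ?_)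
    rw [Nat.card_Icc]
    omega
  have h7 : ((KA pr A X).card : ℝ) ≤ (KF pr A G X).card + ⌊√((G : ℝ) * X)⌋₊ := by exact_mod_cast h6
  have h8 := Nat.floor_le (Real.sqrt_nonneg ((G : ℝ) * X))
  linarith

/-- the classes with many elements of `K` -/
lemma many_classes (pr : Bool) (w : ℕ) (K : Finset ℕ) (X : ℕ) (β κ : ℝ) (hκ0 : 0 < κ) (hβ1 : β ≤ 1)
    (hX : 2 ≤ X) (hwX : (w : ℝ) ≤ √(X : ℝ)) (hK : K ⊆ KN pr X)
    (hKNc : ∀ a ∈ AA pr w, ((cls w (KN pr X) a).card : ℝ) ≤ (1 + κ) * ppq pr w X)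
    (hKA : (β - 3 * κ) * tot pr X ≤ K.card) :
    (β - 5 * κ) * (AA pr w).card ≤
      (((AA pr w).filter (fun a => κ * ppq pr w X ≤ (cls w K a).card)).card : ℝ) := by
  classical
  have hpp0 := ppq_pos pr w X hX
  have hAA := AA_card_pos pr w
  rw [← AA_ppq pr w X] at hKA
  have hKAcls : ∀ b ∈ K, (b : ZMod (Wp w)) ∈ AA pr w := by
    intro b hb
    have hb' := hK hb
    rw [mem_KN] at hb'
    exact arg_class pr w X b hwX hb'.1 hb'.2.1
  obtain ⟨B, hB⟩ : ∃ B : Finset (ZMod (Wp w)), B = (AA pr w).filter (fun a => κ * ppq pr w X ≤ (cls w K a).card) := ⟨_, rfl⟩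
  have hBU : B ⊆ AA pr w := by rw [hB]; exact filter_subset _ _
  rw [← hB]
  have h1 : (K.card : ℝ) ≤ ppq pr w X * ((1 + κ) * B.card + κ * (AA pr w).card) := by
    rw [← sum_cls_AA pr w K hKAcls,
      ← sum_filter_add_sum_filter_not (AA pr w) (fun a => κ * ppq pr w X ≤ (cls w K a).card), ← hB, mul_add]
    apply add_le_add
    · have h2 : ppq pr w X * ((1 + κ) * B.card) = ∑ a ∈ B, (1 + κ) * ppq pr w X := by
        rw [sum_const, nsmul_eq_mul]
        ring
      rw [h2]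
      apply sum_le_sum
      intro a ha
      have h5 : ((cls w K a).card : ℝ) ≤ (cls w (KN pr X) a).card := by
        exact_mod_cast card_le_card (cls_mono hK a)
      exact h5.trans (hKNc a (hBU ha))
    · calc ∑ a ∈ (AA pr w).filter (fun a => ¬ κ * ppq pr w X ≤ (cls w K a).card), ((cls w K a).card : ℝ)
          ≤ ∑ a ∈ (AA pr w).filter (fun a => ¬ κ * ppq pr w X ≤ (cls w K a).card), κ * ppq pr w X := by
            apply sum_le_sum
            intro a ha
            rw [mem_filter, not_le] at ha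
            exact ha.2.le
        _ ≤ ∑ a ∈ AA pr w, κ * ppq pr w X := by
            apply sum_le_sum_of_subset_of_nonneg (filter_subset _ _)
            intro _ _ _
            positivity
        _ = _ := by
            rw [sum_const, nsmul_eq_mul]
            ring
  have h2 : ppq pr w X * ((AA pr w).card * (β - 3 * κ)) ≤ ppq pr w X * ((1 + κ) * B.card + κ * (AA pr w).card) := by
    calc ppq pr w X * ((AA pr w).card * (β - 3 * κ)) = (β - 3 * κ) * ((AA pr w).card * ppq pr w X) := by ring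
      _ ≤ _ := hKA.trans h1
  have h3 := le_of_mul_le_mul_left h2 hpp0
  have h4 : (1 + κ) * ((β - 5 * κ) * (AA pr w).card) ≤ (1 + κ) * B.card := by
    have h5 : (1 + κ) * (β - 5 * κ) ≤ β - 4 * κ := by nlinarith
    have h6 : (1 + κ) * (β - 5 * κ) * (AA pr w).card ≤ (β - 4 * κ) * (AA pr w).card :=
      mul_le_mul_of_nonneg_right h5 hAA.le
    linarith
  exact le_of_mul_le_mul_left h4 (by linarith)

lemma neg_mem_AA {pr : Bool} {w : ℕ} {a : ZMod (Wp w)} (ha : a ∈ AA pr w) : -a ∈ AA pr w := by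
  classical
  unfold AA at ha ⊢
  rw [mem_filter] at ha ⊢
  exact ⟨mem_univ _, fun h => (ha.2 h).neg⟩

open Classical in
lemma card_neg (pr : Bool) (w : ℕ) (P : ZMod (Wp w) → Prop) :
    ((AA pr w).filter (fun a => P (-a))).card = ((AA pr w).filter P).card := by
  refine card_nbij' (fun a => -a) (fun a => -a) ?_ ?_ ?_ ?_
  · intro a ha
    have ha' := mem_filter.1 (mem_coe.1 ha)
    exact mem_coe.2 (mem_filter.2 ⟨neg_mem_AA ha'.1, ha'.2⟩)
  · intro a ha
    have ha' := mem_filter.1 (mem_coe.1 ha)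
    refine mem_coe.2 (mem_filter.2 ⟨neg_mem_AA ha'.1, ?_⟩)
    rw [neg_neg]
    exact ha'.2
  · intro a _
    exact neg_neg a
  · intro a _
    exact neg_neg a

/-- no local obstruction -/
lemma admG_admk (pr : Bool) {m : ℕ} (h : Fin m → ℕ) (hA : AdmG pr h) : Admk pr h := by
  intro p hp
  obtain ⟨a, ha1, ha2⟩ := hA p hp
  have hp1 := hp.one_lt
  refine ⟨a * (p - 1), fun hpr hd => ?_, fun j hd => ha2 j ?_⟩
  · rcases (hp.dvd_mul).1 hd with h1 | h1
    · exact ha1 hpr h1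
    · exact absurd (Nat.le_of_dvd (by omega) h1) (by omega)
  · have h1 : ((a * (p - 1) + h j : ℕ) : ℤ) = (h j : ℤ) - a + p * a := by
      rw [Nat.cast_add, Nat.cast_mul, Nat.cast_sub hp1.le]
      push_cast
      ring
    have h2 : (p : ℤ) ∣ ((a * (p - 1) + h j : ℕ) : ℤ) := by exact_mod_cast hd
    rw [h1] at h2
    exact (dvd_add_left (dvd_mul_right (p : ℤ) (a : ℤ))).1 h2

open Classical in
/-- the vectors with an entry in a small set -/
lemma card_bad (m x : ℕ) (hx : 1 ≤ x) (S : Finset ℕ) :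
    (((Fintype.piFinset (fun _ : Fin m => Icc 1 x)).filter (fun h => ∃ j, h j ∈ S)).card : ℝ) ≤
      m * ((S.card : ℝ) / x) * (x : ℝ) ^ m := by
  have hxr : (0 : ℝ) < x := by exact_mod_cast hx
  have h1 : ∀ j : Fin m, ((Fintype.piFinset (fun i : Fin m => if i = j then S else Icc 1 x)).card : ℝ) =
      ((S.card : ℝ) / x) * (x : ℝ) ^ m := by
    intro j
    have hm : 1 ≤ m := by
      have := j.2
      omega
    rw [Fintype.card_piFinset, ← mul_prod_erase univ _ (mem_univ j), if_pos rfl]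
    have h2 : ∏ i ∈ univ.erase j, (if i = j then S else Icc 1 x).card = x ^ (m - 1) := by
      rw [prod_congr rfl (fun i hi => by
        rw [if_neg (ne_of_mem_erase hi), Nat.card_Icc, Nat.add_sub_cancel]), prod_const,
        card_erase_of_mem (mem_univ j), card_univ, Fintype.card_fin]
    rw [h2]
    push_cast
    have h3 : (x : ℝ) ^ m = (x : ℝ) ^ (m - 1) * x := by
      rw [← pow_succ, Nat.sub_add_cancel hm]
    rw [h3]
    field_simp
  have h2 : (Fintype.piFinset (fun _ : Fin m => Icc 1 x)).filter (fun h => ∃ j, h j ∈ S) ⊆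
      univ.biUnion (fun j : Fin m => Fintype.piFinset (fun i : Fin m => if i = j then S else Icc 1 x)) := by
    intro h hh
    rw [mem_filter, Fintype.mem_piFinset] at hh
    obtain ⟨h3, j, hj⟩ := hh
    rw [mem_biUnion]
    refine ⟨j, mem_univ j, ?_⟩
    rw [Fintype.mem_piFinset]
    intro i
    by_cases hij : i = j
    · rw [if_pos hij, hij]
      exact hj
    · rw [if_neg hij]
      exact h3 i
  calc (((Fintype.piFinset (fun _ : Fin m => Icc 1 x)).filter (fun h => ∃ j, h j ∈ S)).card : ℝ)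
      ≤ ∑ j : Fin m, ((Fintype.piFinset (fun i : Fin m => if i = j then S else Icc 1 x)).card : ℝ) := by
        exact_mod_cast (card_le_card h2).trans card_biUnion_le
    _ = ∑ _j : Fin m, ((S.card : ℝ) / x) * (x : ℝ) ^ m := sum_congr rfl fun j _ => h1 j
    _ = _ := by
        rw [sum_const, card_univ, Fintype.card_fin, nsmul_eq_mul]
        ring

/-- the lost vectors of a window in a class -/
lemma few (pr : Bool) (m w G : ℕ) (A : Set ℕ) (κ ε : ℝ) (hκ : 0 < κ)
    (k H X : ℕ) (hk : 1 ≤ k) (hX2 : 2 ≤ X) (hXH : 2 * X ≤ H) (hG : k * H ≤ G * X)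
    (hmix : ∀ (M t : Fin m → ℕ) (H : ℕ),
      (∀ j, X ≤ M j ∧ M j + H ≤ G * X ∧ M j < t j ∧ t j ≤ M j + Wp w) → (1 : ℝ) * X ≤ H →
      ∀ K : Finset ℕ, (∀ n ∈ K, isArg pr n ∧ √(X : ℝ) < n ∧ n ≤ X) →
      (∀ n ∈ K, ∀ n' ∈ K, n ≡ n' [MOD Wp w]) →
      (∀ n ∈ K, gk (fun j => (t j : ZMod (Wp w))) (-(n : ZMod (Wp w)))) →
      κ * ppq pr w X ≤ K.card →
      ∀ E ⊆ Fintype.piFinset (fun j => It w (M j) H (t j)),
        |∑ N ∈ E, ∑ n ∈ K, ∏ j, lp (N j - n) - E.card * ((Vz w)⁻¹ ^ m * K.card)| ≤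
          ε * (((H : ℝ) / Wp w) ^ m * ((Vz w)⁻¹ ^ m * K.card)))
    (I : Fin m → ℕ) (hI : ∀ j, 1 ≤ I j ∧ I j < k) (t : Fin m → ZMod (Wp w)) (a : ZMod (Wp w))
    (hta : gk t (-a)) (hac : κ * ppq pr w X ≤ (cls w (KF pr A G X) a).card)
    (E : Finset (Fin m → ℕ)) (hE : ∀ h ∈ E, (∀ j, I j * H < h j ∧ h j ≤ I j * H + H) ∧
      (fun j => (h j : ZMod (Wp w))) = t ∧ h ∉ hitG pr m A) :
    (E.card : ℝ) ≤ ε * ((H : ℝ) / Wp w) ^ m := by
  classical
  have hpp0 := ppq_pos pr w X hX2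
  have hVz := Vz_pos w
  have hrep : ∀ j : Fin m, ∃ t' : ℕ, I j * H < t' ∧ t' ≤ I j * H + Wp w ∧ (t' : ZMod (Wp w)) = t j :=
    fun j => exists_rep w (I j * H) (t j)
  choose t' ht1 ht2 ht3 using hrep
  obtain ⟨C, hC⟩ : ∃ C : Finset ℕ, C = cls w (KF pr A G X) a := ⟨_, rfl⟩
  have hCm : ∀ b ∈ C, (isArg pr b ∧ √(X : ℝ) < b ∧ b ≤ X) ∧ b ∈ A ∧ G * X < b ^ 2 ∧ (b : ZMod (Wp w)) = a := by
    intro b hb
    rw [hC, mem_cls, mem_KF, mem_KA] at hb
    exact ⟨hb.1.1.1, hb.1.1.2, hb.1.2, hb.2⟩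
  rw [← hC] at hac
  have hwin : ∀ j : Fin m, H ≤ I j * H ∧ I j * H + H ≤ k * H := by
    intro j
    obtain ⟨h1, h2⟩ := hI j
    constructor
    · exact Nat.le_mul_of_pos_left H h1
    · calc I j * H + H = (I j + 1) * H := by ring
        _ ≤ k * H := Nat.mul_le_mul_right H h2
  have hXr : (1 : ℝ) * X ≤ H := by
    rw [one_mul]
    have : X ≤ H := by omega
    exact_mod_cast this
  have hm1 := hmix (fun j => I j * H) t' H (fun j => ⟨by have := (hwin j).1; omega,
      (hwin j).2.trans hG, ht1 j, ht2 j⟩) hXr C (fun b hb => (hCm b hb).1)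
    (fun b hb b' hb' => by
      rw [← ZMod.natCast_eq_natCast_iff, (hCm b hb).2.2.2, (hCm b' hb').2.2.2])
    (fun b hb => by
      intro j
      have h1 : IsUnit (((t' j : ℕ) : ZMod (Wp w)) + -(b : ZMod (Wp w))) := by
        rw [ht3 j, (hCm b hb).2.2.2]
        exact hta j
      exact h1) hac E (by
      intro h hh
      obtain ⟨h1, h2, _⟩ := hE h hh
      rw [Fintype.mem_piFinset]
      intro j
      rw [mem_It]
      refine ⟨h1 j, ?_⟩
      rw [← ZMod.natCast_eq_natCast_iff, ht3 j]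
      exact congrFun h2 j)
  have hzero : ∑ N ∈ E, ∑ n ∈ C, ∏ j, lp (N j - n) = 0 := by
    apply sum_eq_zero
    intro N hN
    apply sum_eq_zero
    intro n hn
    obtain ⟨hN1, _, hN3⟩ := hE N hN
    obtain ⟨hn1, hn2, hn3, _⟩ := hCm n hn
    have h1 : ¬ ∀ j, (N j - n).Prime := by
      intro h2
      refine hN3 ⟨n, hn2, hn1.1, fun j => ⟨?_, ?_, h2 j⟩⟩
      · have h3 := (hN1 j).2
        have h4 := (hwin j).2
        omega
      · have h3 := (hN1 j).1
        have h4 := (hwin j).1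
        have h5 := hn1.2.2
        omega
    push Not at h1
    obtain ⟨j, hj⟩ := h1
    apply prod_eq_zero (mem_univ j)
    unfold Pool.Agent.TH881.RK.lp
    rw [if_neg hj]
  rw [hzero] at hm1
  have hC0 : (0 : ℝ) < C.card := lt_of_lt_of_le (by positivity) hac
  have hvC : 0 < (Vz w)⁻¹ ^ m * (C.card : ℝ) := by positivity
  have h1 := (abs_le.1 hm1).1
  have h3 : (E.card : ℝ) * ((Vz w)⁻¹ ^ m * C.card) ≤ (ε * ((H : ℝ) / Wp w) ^ m) * ((Vz w)⁻¹ ^ m * C.card) := by
    linarith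
  exact le_of_mul_le_mul_right h3 hvC

/-- **upper bound for the density of the lost vectors, Goldbach form** -/
theorem stUpG_of (pr : Bool) (m : ℕ) (hm : 1 ≤ m) (hMix : StMixG pr m) : StUpG pr m := by
  classical
  intro η κ θ hη hκ hηκ ⟨w1, hw1⟩ A hA
  have hθ0 : 0 ≤ θ := by
    refine le_trans ?_ (hw1 w1 le_rfl (AA pr w1) (Finset.Subset.refl _) ?_)
    · positivity
    · have := AA_card_pos pr w1
      nlinarith
  apply le_of_forall_pos_le_add
  intro ε hε
  have hmr : (0 : ℝ) < m := by exact_mod_cast hm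
  obtain ⟨κ', hκ'⟩ : ∃ κ' : ℝ, κ' = κ / 5 := ⟨_, rfl⟩
  have hκ'0 : 0 < κ' := by rw [hκ']; positivity
  obtain ⟨ε2, hε2⟩ : ∃ ε2 : ℝ, ε2 = min (ε / 4) (1 / 2) := ⟨_, rfl⟩
  have hε20 : 0 < ε2 := by rw [hε2]; positivity
  have hε21 : ε2 ≤ ε / 4 := by rw [hε2]; exact min_le_left _ _
  have hε22 : ε2 ≤ 1 / 2 := by rw [hε2]; exact min_le_right _ _
  -- the number of windows
  obtain ⟨k0, hk0⟩ := exists_nat_ge (4 * m / ε)
  obtain ⟨k, hk⟩ : ∃ k : ℕ, k = k0 + 1 := ⟨_, rfl⟩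
  have hk1 : 1 ≤ k := by omega
  have hkr : (0 : ℝ) < k := by exact_mod_cast hk1
  have hmk : (m : ℝ) / k ≤ ε / 4 := by
    rw [div_le_iff₀ hε] at hk0
    rw [div_le_iff₀ hkr, hk]
    push_cast
    nlinarith
  obtain ⟨G, hG⟩ : ∃ G : ℕ, G = 4 * k := ⟨_, rfl⟩
  obtain ⟨w0, hmix⟩ := hMix G κ' ε2 1 (by omega) hκ'0 hε20 (by linarith) one_pos
  obtain ⟨w, hw⟩ : ∃ w : ℕ, w = w0 + w1 := ⟨_, rfl⟩
  obtain ⟨X1, hX1⟩ := hmix w (by omega)
  obtain ⟨X2, hX2⟩ := KN_class pr w κ' hκ'0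
  obtain ⟨X3, hX3⟩ := KF_card pr A G (by omega) (1 - η) κ' (by linarith) (by linarith) hκ'0 hA
  obtain ⟨XX, hXX⟩ : ∃ XX : ℕ, XX = X1 + X2 + X3 + w ^ 2 + 2 := ⟨_, rfl⟩
  have hW1 : 0 < Wp w := Wp_pos w
  have hW : (0 : ℝ) < Wp w := by exact_mod_cast hW1
  -- the conditions for `x`
  have hlim : Tendsto (fun x : ℕ => θ * (1 + (Wp w : ℝ) / x) ^ m) atTop (𝓝 (θ * (1 + 0) ^ m)) := by
    apply Tendsto.const_mul
    apply Tendsto.pow
    apply Tendsto.const_add
    exact tendsto_const_div_atTop_nhds_zero_nat _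
  rw [add_zero, one_pow, mul_one] at hlim
  have hev := hlim.eventually_lt_const (show θ < θ + ε / 4 by linarith)
  have hlim2 : Tendsto (fun x : ℕ => ((m : ℝ) * k) / x) atTop (𝓝 0) :=
    tendsto_const_div_atTop_nhds_zero_nat _
  have hev2 := hlim2.eventually_lt_const (show (0 : ℝ) < ε / 4 by linarith)
  apply udk_le
  filter_upwards [hev, hev2, eventually_ge_atTop (k * (2 * XX + 2))] with x hx1 hx2 hx3
  have hx4 : 1 ≤ x := by
    have : 1 * 1 ≤ k * (2 * XX + 2) := Nat.mul_le_mul hk1 (by omega)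
    omega
  have hxr : (0 : ℝ) < x := by exact_mod_cast hx4
  obtain ⟨H, hH⟩ : ∃ H : ℕ, H = x / k := ⟨_, rfl⟩
  have hH1 : 2 * XX + 2 ≤ H := by
    rw [hH, Nat.le_div_iff_mul_le hk1, mul_comm]
    exact hx3
  have hkH : k * H ≤ x := by
    rw [hH]
    exact Nat.mul_div_le x k
  have hkH2 : x < k * H + k := by
    rw [hH]
    have := Nat.lt_mul_div_succ x hk1
    calc x < k * (x / k + 1) := this
      _ = _ := by ring
  obtain ⟨X, hX⟩ : ∃ X : ℕ, X = H / 2 := ⟨_, rfl⟩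
  have hXXX : XX ≤ X := by omega
  have hGX : k * H ≤ G * X := by
    rw [hG]
    have : H ≤ 4 * X := by omega
    calc k * H ≤ k * (4 * X) := Nat.mul_le_mul_left k this
      _ = _ := by ring
  have hwX : (w : ℝ) ≤ √(X : ℝ) := by
    apply Real.le_sqrt_of_sq_le
    have h1 : w ^ 2 ≤ X := by omega
    exact_mod_cast h1
  -- the classes with many arguments
  obtain ⟨B, hB⟩ : ∃ B : Finset (ZMod (Wp w)), B = (AA pr w).filter
    (fun a => κ' * ppq pr w X ≤ (cls w (KF pr A G X) (-a)).card) := ⟨_, rfl⟩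
  have hBU : B ⊆ AA pr w := by rw [hB]; exact filter_subset _ _
  have hBc : (1 - η - κ) * (AA pr w).card ≤ B.card := by
    have h1 := many_classes pr w (KF pr A G X) X (1 - η) κ' hκ'0 (by linarith) (by omega) hwX (by
      intro n hn
      rw [mem_KF, mem_KA] at hn
      rw [mem_KN]
      exact hn.1.1) (hX2 X (by omega)) (hX3 X (by omega))
    have h2 : B.card = ((AA pr w).filter (fun a => κ' * ppq pr w X ≤ (cls w (KF pr A G X) a).card)).card := by
      rw [hB]
      exact card_neg pr w (fun a => κ' * ppq pr w X ≤ (cls w (KF pr A G X) a).card)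
    rw [h2]
    have h3 : 1 - η - κ = 1 - η - 5 * κ' := by rw [hκ']; ring
    rw [h3]
    exact h1
  have hmis := hw1 w (by omega) B hBU hBc
  rw [div_le_iff₀ (by positivity)] at hmis
  -- the exceptional vectors of a window in a class
  obtain ⟨F, hF⟩ : ∃ F : (Fin m → ℕ) → (Fin m → ZMod (Wp w)) → Finset (Fin m → ℕ), F = fun I t =>
    (Fintype.piFinset (fun j : Fin m => Ioc (I j * H) (I j * H + H))).filter
      (fun h => (fun j => (h j : ZMod (Wp w))) = t ∧ h ∉ hitG pr m A) := ⟨_, rfl⟩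
  have hfew : ∀ I ∈ Fintype.piFinset (fun _ : Fin m => Ico 1 k), ∀ t ∈ sumk m w B,
      ((F I t).card : ℝ) ≤ ε2 * ((H : ℝ) / Wp w) ^ m := by
    intro I hI t ht
    unfold sumk at ht
    rw [mem_filter] at ht
    obtain ⟨_, a, haB, hta⟩ := ht
    rw [hB, mem_filter] at haB
    rw [Fintype.mem_piFinset] at hI
    refine few pr m w G A κ' ε2 hκ'0 k H X hk1 (by omega) (by omega) hGX (hX1 X (by omega)) I
      (fun j => mem_Ico.1 (hI j)) t (-a) (by rwa [neg_neg]) haB.2 (F I t) ?_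
    intro h hh
    rw [hF, mem_filter, Fintype.mem_piFinset] at hh
    exact ⟨fun j => mem_Ioc.1 (hh.1 j), hh.2.1, hh.2.2⟩
  -- the vectors with an entry outside the windows
  obtain ⟨S, hS⟩ : ∃ S : Finset ℕ, S = Icc 1 H ∪ Ioc (k * H) x := ⟨_, rfl⟩
  have hScard : (S.card : ℝ) / x ≤ 1 / k + k / x := by
    have h1 : S.card ≤ H + k := by
      rw [hS]
      refine (card_union_le _ _).trans ?_
      rw [Nat.card_Icc, Nat.card_Ioc]
      omega
    have h2 : (S.card : ℝ) ≤ H + k := by exact_mod_cast h1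
    have h3 : (H : ℝ) ≤ x / k := by
      rw [le_div_iff₀ hkr, mul_comm]
      exact_mod_cast hkH
    rw [div_le_iff₀ hxr, add_mul]
    have h4 : 1 / (k : ℝ) * x = x / k := by ring
    have h5 : (k : ℝ) / x * x = k := by field_simp
    rw [h4, h5]
    linarith
  -- the covering
  have hcover : cS (losG pr m A) x ⊆
      (cS {h : Fin m → ℕ | (fun j => (h j : ZMod (Wp w))) ∈ misk pr m w B} x ∪
        (Fintype.piFinset (fun _ : Fin m => Icc 1 x)).filter (fun h => ∃ j, h j ∈ S)) ∪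
      (Fintype.piFinset (fun _ : Fin m => Ico 1 k)).biUnion (fun I => (sumk m w B).biUnion (F I)) := by
    intro h hh
    rw [mem_cS] at hh
    obtain ⟨hh1, hh2, hh3⟩ := hh
    rw [mem_union, mem_union, mem_cS, mem_filter, Fintype.mem_piFinset]
    by_cases h1 : (fun j => (h j : ZMod (Wp w))) ∈ misk pr m w B
    · exact Or.inl (Or.inl ⟨hh1, h1⟩)
    by_cases h2 : ∃ j, h j ∈ S
    · exact Or.inl (Or.inr ⟨hh1, h2⟩)
    right
    push Not at h2
    have hH0 : 0 < H := by omega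
    have h3 : ∀ j, H < h j ∧ h j ≤ k * H := by
      intro j
      have h4 := h2 j
      have h5 := hh1 j
      rw [hS, mem_union, mem_Icc, mem_Ioc, not_or] at h4
      rw [mem_Icc] at h5
      omega
    rw [mem_biUnion]
    refine ⟨fun j => (h j - 1) / H, ?_, ?_⟩
    · rw [Fintype.mem_piFinset]
      intro j
      rw [mem_Ico]
      have h4 := h3 j
      constructor
      · rw [Nat.le_div_iff_mul_le hH0]
        omega
      · rw [Nat.div_lt_iff_lt_mul hH0]
        omega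
    · rw [mem_biUnion]
      refine ⟨fun j => (h j : ZMod (Wp w)), ?_, ?_⟩
      · unfold misk at h1
        rw [mem_filter] at h1
        unfold sumk
        rw [mem_filter]
        refine ⟨mem_univ _, ?_⟩
        by_contra h4
        push Not at h4
        exact h1 ⟨mem_univ _, wk_ne_zero pr w h (admG_admk pr h hh2), h4⟩
      · rw [hF, mem_filter, Fintype.mem_piFinset]
        refine ⟨fun j => ?_, rfl, hh3⟩
        rw [mem_Ioc]
        have h4 := h3 j
        have h5 := Nat.div_add_mod (h j - 1) H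
        have h6 := Nat.mod_lt (h j - 1) hH0
        have h7 : (h j - 1) / H * H = H * ((h j - 1) / H) := mul_comm _ _
        rw [h7]
        omega
  -- the counting
  have hmisc := cntk_cls w (misk pr m w B) x
  have hbad := card_bad m x hx4 S
  have hsc : ((sumk m w B).card : ℝ) ≤ (Wp w : ℝ) ^ m := by
    have h1 : (sumk m w B).card ≤ Wp w ^ m := by
      have h2 := card_le_univ (sumk m w B)
      rwa [Fintype.card_pi, prod_const, card_univ, Fintype.card_fin, ZMod.card] at h2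
    exact_mod_cast h1
  have hwin : (((Fintype.piFinset (fun _ : Fin m => Ico 1 k)).biUnion
      (fun I => (sumk m w B).biUnion (F I))).card : ℝ) ≤ ε2 * (x : ℝ) ^ m := by
    have h1 : ((Fintype.piFinset (fun _ : Fin m => Ico 1 k)).card : ℝ) ≤ (k : ℝ) ^ m := by
      rw [Fintype.card_piFinset, prod_const, card_univ, Fintype.card_fin, Nat.card_Ico]
      push_cast
      apply pow_le_pow_left₀ (Nat.cast_nonneg _)
      exact_mod_cast Nat.sub_le k 1
    have hHr : (0 : ℝ) ≤ H := Nat.cast_nonneg _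
    calc (((Fintype.piFinset (fun _ : Fin m => Ico 1 k)).biUnion
        (fun I => (sumk m w B).biUnion (F I))).card : ℝ)
        ≤ ∑ I ∈ Fintype.piFinset (fun _ : Fin m => Ico 1 k), (((sumk m w B).biUnion (F I)).card : ℝ) := by
          exact_mod_cast card_biUnion_le
      _ ≤ ∑ I ∈ Fintype.piFinset (fun _ : Fin m => Ico 1 k), ε2 * (H : ℝ) ^ m := by
          apply sum_le_sum
          intro I hI
          calc (((sumk m w B).biUnion (F I)).card : ℝ) ≤ ∑ t ∈ sumk m w B, ((F I t).card : ℝ) := by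
                exact_mod_cast card_biUnion_le
            _ ≤ ∑ t ∈ sumk m w B, ε2 * ((H : ℝ) / Wp w) ^ m := sum_le_sum (hfew I hI)
            _ = (sumk m w B).card * (ε2 * ((H : ℝ) / Wp w) ^ m) := by rw [sum_const, nsmul_eq_mul]
            _ ≤ (Wp w : ℝ) ^ m * (ε2 * ((H : ℝ) / Wp w) ^ m) :=
                mul_le_mul_of_nonneg_right hsc (by positivity)
            _ = ε2 * (H : ℝ) ^ m := by
                rw [div_pow]
                field_simp
      _ = (Fintype.piFinset (fun _ : Fin m => Ico 1 k)).card * (ε2 * (H : ℝ) ^ m) := by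
          rw [sum_const, nsmul_eq_mul]
      _ ≤ (k : ℝ) ^ m * (ε2 * (H : ℝ) ^ m) := mul_le_mul_of_nonneg_right h1 (by positivity)
      _ = ε2 * ((k : ℝ) * H) ^ m := by rw [mul_pow]; ring
      _ ≤ ε2 * (x : ℝ) ^ m := by
          apply mul_le_mul_of_nonneg_left _ hε20.le
          apply pow_le_pow_left₀ (by positivity)
          exact_mod_cast hkH
  have htot : (cntk (losG pr m A) x : ℝ) ≤
      (cntk {h : Fin m → ℕ | (fun j => (h j : ZMod (Wp w))) ∈ misk pr m w B} x : ℝ) +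
      (((Fintype.piFinset (fun _ : Fin m => Icc 1 x)).filter (fun h => ∃ j, h j ∈ S)).card : ℝ) +
      (((Fintype.piFinset (fun _ : Fin m => Ico 1 k)).biUnion
        (fun I => (sumk m w B).biUnion (F I))).card : ℝ) := by
    rw [cntk_eq, cntk_eq]
    have h1 := (card_le_card hcover).trans ((card_union_le _ _).trans
      (Nat.add_le_add_right (card_union_le _ _) _))
    exact_mod_cast h1
  have hxm : 0 < (x : ℝ) ^ m := by positivity
  have h4 : ((misk pr m w B).card : ℝ) * ((x : ℝ) / Wp w + 1) ^ m ≤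
      θ * (1 + (Wp w : ℝ) / x) ^ m * (x : ℝ) ^ m := by
    calc ((misk pr m w B).card : ℝ) * ((x : ℝ) / Wp w + 1) ^ m
        ≤ (θ * (Wp w : ℝ) ^ m) * ((x : ℝ) / Wp w + 1) ^ m :=
          mul_le_mul_of_nonneg_right hmis (by positivity)
      _ = θ * (1 + (Wp w : ℝ) / x) ^ m * (x : ℝ) ^ m := by
          rw [mul_assoc, mul_assoc, ← mul_pow, ← mul_pow]
          congr 2
          field_simp
  rw [div_le_iff₀ hxm]
  have h5 : (m : ℝ) * ((S.card : ℝ) / x) ≤ ε / 4 + ε / 4 := by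
    calc (m : ℝ) * ((S.card : ℝ) / x) ≤ m * (1 / k + k / x) := mul_le_mul_of_nonneg_left hScard hmr.le
      _ = m / k + m * k / x := by ring
      _ ≤ _ := add_le_add hmk hx2.le
  have h6 : (m : ℝ) * ((S.card : ℝ) / x) * (x : ℝ) ^ m ≤ (ε / 4 + ε / 4) * (x : ℝ) ^ m :=
    mul_le_mul_of_nonneg_right h5 hxm.le
  have h7 : θ * (1 + (Wp w : ℝ) / x) ^ m * (x : ℝ) ^ m ≤ (θ + ε / 4) * (x : ℝ) ^ m :=
    mul_le_mul_of_nonneg_right hx1.le hxm.le
  have h8 : ε2 * (x : ℝ) ^ m ≤ ε / 4 * (x : ℝ) ^ m := mul_le_mul_of_nonneg_right hε21 hxm.le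
  calc (cntk (losG pr m A) x : ℝ) ≤ (θ + ε / 4) * (x : ℝ) ^ m + (ε / 4 + ε / 4) * (x : ℝ) ^ m +
        ε / 4 * (x : ℝ) ^ m := by linarith
    _ = (θ + ε) * (x : ℝ) ^ m := by ring

end Pool.Agent.TH9.J4027
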