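import Pool.Agent.TH451.BK.Greedy

set_option autoImplicit false

namespace Pool.Agent.TH9.BK

open Finset Pool.Agent.TH451.BK
open scoped Classical

variable {V : Type} [Fintype V]

theorem exchange (G : SimpleGraph V) (k t : ℕ) (F : Finset (Finset V)) (hF : MaxFam k t G F)
    (C : Finset V) (hC : C ∈ F) (C'' : Finset V) (hcl : G.IsClique (C'' : Set V))
    (hcard : C.card < C''.card) (hdisj : ∀ C' ∈ F, C' ≠ C → Disjoint C'' C') : False := by
  have hfam : Fam k t G (insert C'' (F.erase C)) := by
    refine ⟨?_, ?_, ?_⟩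
    · intro B hB
      rcases Finset.mem_insert.1 hB with rfl | h
      · exact hcl
      · exact hF.clq B (Finset.mem_of_mem_erase h)
    · intro B hB
      rcases Finset.mem_insert.1 hB with rfl | h
      · have := hF.big C hC
        omega
      · exact hF.big B (Finset.mem_of_mem_erase h)
    · intro B hB B' hB' hne
      rcases Finset.mem_insert.1 hB with rfl | h
      · rcases Finset.mem_insert.1 hB' with rfl | h'
        · exact absurd rfl hne
        · exact hdisj B' (Finset.mem_of_mem_erase h') (Finset.ne_of_mem_erase h')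
      · rcases Finset.mem_insert.1 hB' with rfl | h'
        · exact (hdisj B (Finset.mem_of_mem_erase h) (Finset.ne_of_mem_erase h)).symm
        · exact hF.disj B (Finset.mem_of_mem_erase h) B' (Finset.mem_of_mem_erase h') hne
  have h1 := hF.max _ hfam
  have h2 : (insert C'' (F.erase C)).biUnion id = C'' ∪ (F.erase C).biUnion id := by
    rw [Finset.biUnion_insert]; rfl
  have h3 : F.biUnion id = C ∪ (F.erase C).biUnion id := by
    conv_lhs => rw [← Finset.insert_erase hC]
    rw [Finset.biUnion_insert]; rfl
  have hd : Disjoint C'' ((F.erase C).biUnion id) := by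
    rw [Finset.disjoint_biUnion_right]
    intro B hB
    exact hdisj B (Finset.mem_of_mem_erase hB) (Finset.ne_of_mem_erase hB)
  rw [h2, h3, Finset.card_union_of_disjoint hd] at h1
  have h4 := Finset.card_union_le C ((F.erase C).biUnion id)
  omega

theorem notMem_fam (G : SimpleGraph V) (k t : ℕ) (hG : MinCex k G)
    (hk : 100 * (t + 1) ≤ k) (F : Finset (Finset V)) (hF : MaxFam k t G F) (C : Finset V)
    (hC : C ∈ F) (y : V) (hy : y ∉ C) (h3 : (C \ nb G y).card ≤ 3) :
    ∀ C' ∈ F, y ∉ C' := by
  intro C' hC' hyC'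
  have hne : C ≠ C' := by
    rintro rfl; exact hy hyC'
  have hdis := hF.disj C hC C' hC' hne
  have hb := hF.big C hC
  have hb' := hF.big C' hC'
  have h1 : (C'.erase y) ∪ (C ∩ nb G y) ⊆ nb G y := by
    apply Finset.union_subset _ Finset.inter_subset_right
    intro z hz
    rw [mem_nb]
    exact hF.clq C' hC' hyC' (Finset.mem_of_mem_erase hz) (Finset.ne_of_mem_erase hz).symm
  have h2 : Disjoint (C'.erase y) (C ∩ nb G y) :=
    Disjoint.mono (Finset.erase_subset _ _) Finset.inter_subset_left hdis.symm
  have h4 := Finset.card_le_card h1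
  rw [Finset.card_union_of_disjoint h2, Finset.card_erase_of_mem hyC'] at h4
  have h5 := Finset.card_sdiff_add_card_inter C (nb G y)
  have h6 := hG.deg y
  omega

theorem clique_insert (G : SimpleGraph V) (S : Finset V) (a : V)
    (hS : G.IsClique (S : Set V)) (h : ∀ x ∈ S, G.Adj a x) :
    G.IsClique ((insert a S : Finset V) : Set V) := by
  rw [Finset.coe_insert]
  exact hS.insert (fun b hb _ => h b (Finset.mem_coe.1 hb))

theorem exists_nonadj (G : SimpleGraph V) (k t : ℕ) (hG : MinCex k G)
    (hk : 100 * (t + 1) ≤ k) (F : Finset (Finset V)) (hF : MaxFam k t G F) (C : Finset V)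
    (hC : C ∈ F) (y : V) (hy : y ∉ C) (h3 : (C \ nb G y).card ≤ 3) :
    ∃ x ∈ C, ¬ G.Adj y x := by
  by_contra hcon
  push Not at hcon
  have hn := notMem_fam G k t hG hk F hF C hC y hy h3
  refine exchange G k t F hF C hC (insert y C) (clique_insert G C y (hF.clq C hC) hcon) ?_ ?_
  · rw [Finset.card_insert_of_notMem hy]; omega
  · intro C' hC' hne
    rw [Finset.disjoint_insert_left]
    exact ⟨hn C' hC', hF.disj C hC C' hC' hne.symm⟩

/-- outside degree of a vertex outside `C` which is adjacent to all but three vertices of `C` -/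
theorem out_y (G : SimpleGraph V) (k t : ℕ) (hG : MinCex k G) (C D : Finset V)
    (hb : k + 1 ≤ C.card + t) (hCD : C ⊆ D) (y : V) (h3 : (C \ nb G y).card ≤ 3) :
    (nb G y \ D).card ≤ t + 3 := by
  have h1 : (nb G y \ D).card ≤ (nb G y \ C).card :=
    Finset.card_le_card (Finset.sdiff_subset_sdiff (Finset.Subset.refl _) hCD)
  have h2 := Finset.card_sdiff_add_card_inter (nb G y) C
  have h4 := Finset.card_sdiff_add_card_inter C (nb G y)
  rw [Finset.inter_comm] at h4
  have h5 := hG.deg y
  omega

theorem out_x (G : SimpleGraph V) (k t : ℕ) (hG : MinCex k G) (C D : Finset V)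
    (hb : k + 1 ≤ C.card + t) (hCD : C ⊆ D) (hcl : G.IsClique (C : Set V)) (x : V) (hx : x ∈ C) :
    (nb G x \ D).card ≤ t + 1 := by
  have h1 : (nb G x \ D).card ≤ (nb G x \ C).card :=
    Finset.card_le_card (Finset.sdiff_subset_sdiff (Finset.Subset.refl _) hCD)
  have h2 := Finset.card_sdiff_add_card_inter (nb G x) C
  have h4 : (C.erase x).card ≤ (nb G x ∩ C).card := by
    apply Finset.card_le_card
    intro z hz
    rw [Finset.mem_inter, mem_nb]
    exact ⟨hcl hx (Finset.mem_of_mem_erase hz) (Finset.ne_of_mem_erase hz).symm,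
      Finset.mem_of_mem_erase hz⟩
  rw [Finset.card_erase_of_mem hx] at h4
  have h5 := hG.deg x
  omega

theorem near_unique (G : SimpleGraph V) (k t : ℕ) (hG : MinCex k G)
    (hk : 100 * (t + 1) ≤ k) (F : Finset (Finset V)) (hF : MaxFam k t G F) (C : Finset V)
    (hC : C ∈ F) (y y' : V) (hy : y ∉ C) (hy' : y' ∉ C) (h3 : (C \ nb G y).card ≤ 3)
    (h3' : (C \ nb G y').card ≤ 3) : y = y' := by
  by_contra hne
  have hb := hF.big C hC
  have hcl := hF.clq C hC
  set D : Finset V := insert y (insert y' C) with hD
  have hCD : C ⊆ D := (Finset.subset_insert _ _).trans (Finset.subset_insert _ _)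
  have hyD : y ∈ D := Finset.mem_insert_self _ _
  have hy'D : y' ∈ D := Finset.mem_insert_of_mem (Finset.mem_insert_self _ _)
  have oy := out_y G k t hG C D hb hCD y h3
  have oy' := out_y G k t hG C D hb hCD y' h3'
  have hDmem : ∀ u ∈ D, u ≠ y → u ≠ y' → u ∈ C := by
    intro u hu h1 h2
    rcases Finset.mem_insert.1 hu with h | h
    · exact absurd h h1
    · rcases Finset.mem_insert.1 h with h | h
      · exact absurd h h2
      · exact h
  have hadjC : ∀ u ∈ C, ∀ w ∈ C, u ≠ w → G.Adj u w := fun u hu w hw h => hcl hu hw h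
  by_cases hcase : ∃ x ∈ C, ∃ x' ∈ C, ¬ G.Adj y x ∧ ¬ G.Adj y' x' ∧ x ≠ x'
  · obtain ⟨x, hx, x', hx', hyx, hyx', hxx'⟩ := hcase
    have ox := out_x G k t hG C D hb hCD hcl x hx
    have ox' := out_x G k t hG C D hb hCD hcl x' hx'
    have e1 : y ≠ x := fun h => hy (h ▸ hx)
    have e2 : y ≠ x' := fun h => hy (h ▸ hx')
    have e3 : y' ≠ x := fun h => hy' (h ▸ hx)
    have e4 : y' ≠ x' := fun h => hy' (h ▸ hx')
    refine hG.no_pairs D y x y' x' hyD (hCD hx) hy'D (hCD hx') e1 hne e2 e3.symm hxx' e4 hyx hyx'
      (by omega) (by omega) ?_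
    intro u hu _
    obtain ⟨huD, huP⟩ := Finset.mem_sdiff.1 hu
    simp only [Finset.mem_insert, Finset.mem_singleton, not_or] at huP
    obtain ⟨u1, u2, u3, u4⟩ := huP
    have huC := hDmem u huD u1 u3
    have hsub : (((C \ (C \ nb G y)) \ (C \ nb G y')) \ {x, x', u}) ⊆
        (nb G u ∩ (D \ {y, x, y', x'}).filter
        (fun v => ({y, x, y', x'} : Finset V) ⊆ nb G v)) := by
      intro w hw
      simp only [Finset.mem_sdiff, Finset.mem_insert, Finset.mem_singleton, not_or, not_and,
        not_not, mem_nb] at hw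
      obtain ⟨⟨⟨hwC, hwy⟩, hwy'⟩, hwx, hwx', hwu⟩ := hw
      have hwy1 := hwy hwC
      have hwy2 := hwy' hwC
      rw [Finset.mem_inter, Finset.mem_filter, Finset.mem_sdiff, mem_nb]
      refine ⟨hadjC u huC w hwC (fun h => hwu h.symm), ⟨hCD hwC, ?_⟩, ?_⟩
      · simp only [Finset.mem_insert, Finset.mem_singleton, not_or]
        refine ⟨fun h => hy (h ▸ hwC), hwx, fun h => hy' (h ▸ hwC), hwx'⟩
      · intro v hv
        simp only [Finset.mem_insert, Finset.mem_singleton] at hv
        rw [mem_nb]
        rcases hv with rfl | rfl | rfl | rfl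
        · exact hwy1.symm
        · exact hadjC w hwC _ hx hwx
        · exact hwy2.symm
        · exact hadjC w hwC _ hx' hwx'
    have c1 := Finset.card_le_card hsub
    have c2 := Finset.le_card_sdiff (C \ nb G y) C
    have c3 := Finset.le_card_sdiff (C \ nb G y') (C \ (C \ nb G y))
    have c4 := Finset.le_card_sdiff {x, x', u} ((C \ (C \ nb G y)) \ (C \ nb G y'))
    have c5 : ({x, x', u} : Finset V).card ≤ 3 := Finset.card_le_three
    omega
  · push Not at hcase
    obtain ⟨x, hx, hyx⟩ := exists_nonadj G k t hG hk F hF C hC y hy h3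
    obtain ⟨x', hx', hyx'⟩ := exists_nonadj G k t hG hk F hF C hC y' hy' h3'
    have hxx' : x = x' := hcase x hx x' hx' hyx hyx'
    subst hxx'
    have hay : ∀ w ∈ C, w ≠ x → G.Adj y w := by
      intro w hw hwx
      by_contra h
      exact hwx (hcase w hw x hx h hyx')
    have hay' : ∀ w ∈ C, w ≠ x → G.Adj y' w := by
      intro w hw hwx
      by_contra h
      exact hwx (hcase x hx w hw hyx h).symm
    have ox := out_x G k t hG C D hb hCD hcl x hx
    have e1 : y ≠ x := fun h => hy (h ▸ hx)
    have e3 : y' ≠ x := fun h => hy' (h ▸ hx)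
    by_cases hyy : G.Adj y y'
    · have hcl1 : G.IsClique ((C.erase x : Finset V) : Set V) :=
        hcl.subset (by simpa using Finset.erase_subset x C)
      have hcl2 := clique_insert G (C.erase x) y' hcl1
        (fun w hw => hay' w (Finset.mem_of_mem_erase hw) (Finset.ne_of_mem_erase hw))
      have hcl3 := clique_insert G (insert y' (C.erase x)) y hcl2 (by
        intro w hw
        rcases Finset.mem_insert.1 hw with rfl | hw
        · exact hyy
        · exact hay w (Finset.mem_of_mem_erase hw) (Finset.ne_of_mem_erase hw))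
      refine exchange G k t F hF C hC _ hcl3 ?_ ?_
      · rw [Finset.card_insert_of_notMem, Finset.card_insert_of_notMem,
          Finset.card_erase_of_mem hx]
        · have := Finset.card_pos.2 ⟨x, hx⟩
          omega
        · exact fun h => hy' (Finset.mem_of_mem_erase h)
        · intro h
          rcases Finset.mem_insert.1 h with h | h
          · exact hne h
          · exact hy (Finset.mem_of_mem_erase h)
      · intro C' hC' hCC'
        rw [Finset.disjoint_insert_left, Finset.disjoint_insert_left]
        exact ⟨notMem_fam G k t hG hk F hF C hC y hy h3 C' hC',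
          notMem_fam G k t hG hk F hF C hC y' hy' h3' C' hC',
          Disjoint.mono_left (Finset.erase_subset _ _) (hF.disj C hC C' hC' hCC'.symm)⟩
    · refine hG.no_triple D x y y' (hCD hx) hyD hy'D e1.symm e3.symm hne
        (fun h => hyx h.symm) (fun h => hyx' h.symm) hyy (by omega) ?_
      intro u hu _
      obtain ⟨huD, huP⟩ := Finset.mem_sdiff.1 hu
      simp only [Finset.mem_insert, Finset.mem_singleton, not_or] at huP
      obtain ⟨u1, u2, u3⟩ := huP
      have huC := hDmem u huD u2 u3
      have hsub : (C \ {x, u}) ⊆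
          (nb G u ∩ (D \ {x, y, y'}).filter
          (fun v => ({x, y, y'} : Finset V) ⊆ nb G v)) := by
        intro w hw
        simp only [Finset.mem_sdiff, Finset.mem_insert, Finset.mem_singleton, not_or] at hw
        obtain ⟨hwC, hwx, hwu⟩ := hw
        rw [Finset.mem_inter, Finset.mem_filter, Finset.mem_sdiff, mem_nb]
        refine ⟨hadjC u huC w hwC (fun h => hwu h.symm), ⟨hCD hwC, ?_⟩, ?_⟩
        · simp only [Finset.mem_insert, Finset.mem_singleton, not_or]
          refine ⟨hwx, fun h => hy (h ▸ hwC), fun h => hy' (h ▸ hwC)⟩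
        · intro v hv
          simp only [Finset.mem_insert, Finset.mem_singleton] at hv
          rw [mem_nb]
          rcases hv with rfl | rfl | rfl
          · exact hadjC w hwC _ hx hwx
          · exact (hay w hwC hwx).symm
          · exact (hay' w hwC hwx).symm
      have c1 := Finset.card_le_card hsub
      have c2 := Finset.le_card_sdiff {x, u} C
      have c5 : ({x, u} : Finset V).card ≤ 2 := Finset.card_le_two
      omega

end Pool.Agent.TH9.BK
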