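import Pool.Agent.TH444.ML.Defs

set_option autoImplicit false

open NumberField

namespace Pool.Agent.TH9.J3098

open Pool.Agent.TH444.ML

open UniqueFactorizationMonoid

section

variable {R : Type} [CommRing R] [IsDedekindDomain R]

open Classical in
/-- multiplicity -/
noncomputable def v (P I : Ideal R) : ℕ := Multiset.count P (normalizedFactors I)

lemma v_mul (P : Ideal R) {I J : Ideal R} (hI : I ≠ ⊥) (hJ : J ≠ ⊥) :
    v P (I * J) = v P I + v P J := by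
  unfold v
  rw [normalizedFactors_mul hI hJ, Multiset.count_add]

lemma v_prod {ι : Type} (P : Ideal R) (S : Finset ι) (I : ι → Ideal R) (hI : ∀ i, I i ≠ ⊥) :
    v P (∏ i ∈ S, I i) = ∑ i ∈ S, v P (I i) := by
  classical
  induction S using Finset.induction_on with
  | empty =>
    unfold v
    simp only [Finset.prod_empty, Finset.sum_empty, normalizedFactors_one, Multiset.count_zero]
  | insert a S ha ih =>
    rw [Finset.prod_insert ha, Finset.sum_insert ha, v_mul P (hI a) ?_, ih]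
    rw [← Ideal.zero_eq_bot, Finset.prod_ne_zero_iff]
    intro i _
    exact hI i

lemma v_sqf (P I : Ideal R) (hP : P.IsPrime) (hI : I ≠ ⊥) (hs : Squarefree I) (h : I ≤ P) :
    v P I = 1 := by
  classical
  unfold v
  have h1 : P ∈ normalizedFactors I := (Ideal.mem_normalizedFactors_iff hI).mpr ⟨hP, h⟩
  have h2 : (normalizedFactors I).Nodup := (squarefree_iff_nodup_normalizedFactors hI).mp hs
  convert Multiset.count_eq_one_of_mem h2 h1

lemma v_zero (P I : Ideal R) (hI : I ≠ ⊥) (h : ¬ I ≤ P) : v P I = 0 := by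
  classical
  unfold v
  rw [Multiset.count_eq_zero]
  intro h1
  exact h ((Ideal.mem_normalizedFactors_iff hI).mp h1).2

end

theorem sqBad : SqBad := by
  classical
  intro K M _ _ _ _ _ _ α 𝔡 𝔠 S hα hsq hdc hS hprod
  refine ⟨hsq, fun p hp hp0 hcard => ?_⟩
  rintro ⟨P, ⟨hPp, hPd⟩, huniq⟩
  obtain ⟨σ₀, hσ₀⟩ := hS
  have hPprime : P.IsPrime := hPp.1
  have hPover : P.LiesOver p := hPp.2
  let g : (M ≃ₐ[K] M) → (𝓞 M ≃ₐ[𝓞 K] 𝓞 M) := fun σ => galRestrict (𝓞 K) K M (𝓞 M) σ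
  -- the primes over p
  have hmem : ∀ (τ : 𝓞 M ≃ₐ[𝓞 K] 𝓞 M) (Q : Ideal (𝓞 M)), Q ∈ p.primesOver (𝓞 M) →
      Q.comap τ ∈ p.primesOver (𝓞 M) := by
    intro τ Q hQ
    have hQ1 : Q.IsPrime := hQ.1
    have hQ2 : Q.LiesOver p := hQ.2
    refine ⟨Ideal.comap_isPrime _ _, ⟨?_⟩⟩
    rw [hQ2.over]
    ext x
    simp only [Ideal.under_def, Ideal.mem_comap]
    rw [AlgEquiv.commutes]
  obtain ⟨P', hP'⟩ : ∃ P', P' = P.comap (g σ₀).symm := ⟨_, rfl⟩
  have hP'p : P' ∈ p.primesOver (𝓞 M) := by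
    rw [hP']
    exact hmem _ _ hPp
  have hback : P'.comap (g σ₀) = P := by
    rw [hP']
    ext x
    simp [Ideal.mem_comap]
  have hinj : ∀ σ τ : M ≃ₐ[K] M, P'.comap (g σ) = P'.comap (g τ) → σ = τ := by
    let Φ : (M ≃ₐ[K] M) → p.primesOver (𝓞 M) := fun σ => ⟨P'.comap (g σ), hmem _ _ hP'p⟩
    have hsurj : Function.Surjective Φ := by
      rintro ⟨Q, hQ⟩
      obtain ⟨σ, hσ⟩ := Ideal.exists_comap_galRestrict_eq (𝓞 K) K M (𝓞 M) hP'p hQ
      exact ⟨σ, Subtype.ext hσ⟩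
    have hb : Function.Bijective Φ := by
      refine hsurj.bijective_of_nat_card_le ?_
      rw [Nat.card_coe_set_eq, hcard, IsGalois.card_aut_eq_finrank]
    intro σ τ h
    exact hb.1 (Subtype.ext h)
  have hPd' : 𝔡 ≤ P := Ideal.dvd_iff_le.mp hPd
  have hspan : Ideal.span {α} ≠ ⊥ := by
    rw [Ne, Ideal.span_singleton_eq_bot]
    exact hα
  have hd0 : 𝔡 ≠ ⊥ := by
    rintro rfl
    apply hspan
    rw [hdc, Ideal.bot_mul]
  have hc0 : 𝔠 ≠ ⊥ := by
    rintro rfl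
    apply hspan
    rw [hdc]
    simp [pow_two]
  have hmap0 : ∀ (σ : M ≃ₐ[K] M) (I : Ideal (𝓞 M)), I ≠ ⊥ → I.map (g σ) ≠ ⊥ := by
    intro σ I hI h
    apply hI
    rw [Ideal.map_eq_bot_iff_of_injective (g σ).injective] at h
    exact h
  -- the squarefree parts
  have hsymm : ∀ (σ : M ≃ₐ[K] M) (I : Ideal (𝓞 M)), (I.map (g σ)).map (g σ).symm = I := by
    intro σ I
    have h2 := Ideal.map_of_equiv (I := I) (g σ).toRingEquiv
    exact h2
  have hsymm' : ∀ (σ : M ≃ₐ[K] M) (I : Ideal (𝓞 M)), (I.map (g σ).symm).map (g σ) = I := by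
    intro σ I
    have h2 := Ideal.map_of_equiv (I := I) (g σ).symm.toRingEquiv
    exact h2
  have hsqm : ∀ σ : M ≃ₐ[K] M, Squarefree (𝔡.map (g σ)) := by
    intro σ J hJ
    obtain ⟨X, hX⟩ := hJ
    have h1 : 𝔡 = (J.map (g σ).symm) * (J.map (g σ).symm) * (X.map (g σ).symm) := by
      rw [← Ideal.map_mul, ← Ideal.map_mul, ← hX, hsymm]
    have h2 : IsUnit (J.map (g σ).symm) := hsq _ ⟨_, h1⟩
    rw [Ideal.isUnit_iff] at h2 ⊢
    rw [← hsymm' σ J, h2]
    exact Ideal.map_top _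
  have hcnt : ∀ σ : M ≃ₐ[K] M, v P' (𝔡.map (g σ)) = if σ = σ₀ then 1 else 0 := by
    intro σ
    by_cases hσ : σ = σ₀
    · rw [if_pos hσ, hσ]
      refine v_sqf _ _ hP'p.1 (hmap0 _ _ hd0) (hsqm _) ?_
      rw [Ideal.map_le_iff_le_comap]
      exact hPd'.trans hback.ge
    · rw [if_neg hσ]
      refine v_zero _ _ (hmap0 _ _ hd0) ?_
      intro h
      rw [Ideal.map_le_iff_le_comap] at h
      have h3 : P'.comap (g σ) = P :=
        huniq _ ⟨hmem _ _ hP'p, Ideal.dvd_iff_le.mpr h⟩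
      exact hσ (hinj _ _ (h3.trans hback.symm))
  -- the product is a square
  obtain ⟨b, hb⟩ := hprod
  have hbint : IsIntegral ℤ b := by
    have h1 : IsIntegral ℤ (b ^ 2) := by
      rw [pow_two, ← hb]
      refine IsIntegral.prod _ fun σ _ => ?_
      exact map_isIntegral_int σ.toAlgHom.toRingHom α.2
    exact IsIntegral.of_pow (by norm_num) h1
  obtain ⟨β, hβ⟩ : ∃ β : 𝓞 M, (β : M) = b := ⟨⟨b, hbint⟩, rfl⟩
  have hprod2 : ∏ σ ∈ S, g σ α = β * β := by
    apply RingOfIntegers.coe_injective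
    rw [map_prod, map_mul, show algebraMap (𝓞 M) M β = b from hβ, ← hb]
    refine Finset.prod_congr rfl fun σ _ => ?_
    exact algebraMap_galRestrict_apply (𝓞 K) σ α
  have hI0 : ∀ σ : M ≃ₐ[K] M, (Ideal.span {α}).map (g σ) ≠ ⊥ := fun σ => hmap0 σ _ hspan
  have h1 : ∏ σ ∈ S, (Ideal.span {α}).map (g σ) = Ideal.span {β} * Ideal.span {β} := by
    rw [Ideal.span_singleton_mul_span_singleton, ← hprod2, ← Ideal.prod_span_singleton]
    refine Finset.prod_congr rfl fun σ _ => ?_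
    rw [Ideal.map_span, Set.image_singleton]
  have hβ0 : Ideal.span {β} ≠ ⊥ := by
    intro h
    have h4 : ∏ σ ∈ S, (Ideal.span {α}).map (g σ) ≠ 0 :=
      Finset.prod_ne_zero_iff.mpr fun σ _ => hI0 σ
    rw [h1, h] at h4
    exact h4 (by simp)
  have h2 : v P' (∏ σ ∈ S, (Ideal.span {α}).map (g σ)) = v P' (Ideal.span {β}) + v P' (Ideal.span {β}) := by
    rw [h1, v_mul _ hβ0 hβ0]
  rw [v_prod _ _ _ hI0] at h2
  have h3 : ∀ σ ∈ S, v P' ((Ideal.span {α}).map (g σ)) =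
      (if σ = σ₀ then 1 else 0) + 2 * v P' (𝔠.map (g σ)) := by
    intro σ _
    rw [hdc, Ideal.map_mul, Ideal.map_pow, pow_two, v_mul _ (hmap0 _ _ hd0)
      (mul_ne_zero (hmap0 _ _ hc0) (hmap0 _ _ hc0)), v_mul _ (hmap0 _ _ hc0) (hmap0 _ _ hc0), hcnt]
    ring
  rw [Finset.sum_congr rfl h3, Finset.sum_add_distrib, Finset.sum_ite_eq', if_pos hσ₀,
    ← Finset.mul_sum] at h2
  omega

end Pool.Agent.TH9.J3098
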