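import Pool.Agent.TH614.HS.Base

/-!
# The three chord relations of a simple circle root (job 3865 of helper614, written by helper9)
-/

set_option autoImplicit false

namespace Pool.Agent.TH9.J3865

open Pool.Agent.TH614.HS Pool.Agent.TH614.HS.HD

section

variable {L : Type} [Field L] (D : HD L)

lemma pow2q (s : L) : s ^ (2 * D.q) = (s ^ D.q) ^ 2 := by
  rw [← pow_mul, mul_comm]

/-- the `q`-th power of `mM` -/
lemma mM_q (x s mu eta : L) : (D.mM x s mu eta) ^ D.q =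
    (2 * mu ^ (D.q ^ 2) + D.th * eta ^ (D.q ^ 2)) *
      (x ^ (D.q ^ 2) * (s ^ (D.q ^ 2)) ^ 2 / x ^ (D.q ^ 5)) := by
  unfold HD.mM
  rw [pow2q, ← D.fr_def]
  simp only [map_mul, map_sub, map_div₀, map_pow, map_ofNat]
  simp only [D.fr_def, D.thq, D.qp, D.qq]
  ring

lemma mE_q (x s mu eta : L) : (D.mE x s mu eta) ^ D.q =
    (2 * eta ^ (D.q ^ 2) + D.th * mu ^ (D.q ^ 2)) *
      (x ^ (D.q ^ 2) * (s ^ (D.q ^ 2)) ^ 2 / x ^ (D.q ^ 5)) := by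
  unfold HD.mE
  rw [pow2q, ← D.fr_def]
  simp only [map_mul, map_sub, map_div₀, map_pow, map_ofNat]
  simp only [D.fr_def, D.thq, D.qp, D.qq]
  ring

/-- the `q^2`-th powers of the equations of `Ep` -/
lemma Ep_mM {x s mu eta ep : L} (hE : D.Ep x s mu eta ep) :
    D.mM x s mu eta = ep * mu ^ (D.q ^ 4) ∧ D.mE x s mu eta = ep * eta ^ (D.q ^ 4) := by
  obtain ⟨hep, h1, h2⟩ := hE
  have hee : ep * ep = 1 := by rcases hep with h | h <;> rw [h] <;> ring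
  have e1 : (mu ^ (D.q ^ 3)) ^ (D.q ^ 2) = ep * ((2 * mu ^ (D.q ^ 2) + D.th * eta ^ (D.q ^ 2)) *
      ((s ^ (D.q ^ 2)) ^ 2 * x ^ (D.q ^ 2) / x ^ (D.q ^ 5))) := by
    rw [h1, ← D.frn_def]
    simp only [map_mul, map_add, map_div₀, map_pow, map_ofNat]
    simp only [D.frn_def, D.th_q2, D.sgn_n hep, D.pp]
  have e2 : (eta ^ (D.q ^ 3)) ^ (D.q ^ 2) = ep * ((D.th * mu ^ (D.q ^ 2) + 2 * eta ^ (D.q ^ 2)) *
      ((s ^ (D.q ^ 2)) ^ 2 * x ^ (D.q ^ 2) / x ^ (D.q ^ 5))) := by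
    rw [h2, ← D.frn_def]
    simp only [map_mul, map_add, map_div₀, map_pow, map_ofNat]
    simp only [D.frn_def, D.th_q2, D.sgn_n hep, D.pp]
  rw [D.pp] at e1 e2
  constructor
  · apply D.inj_q
    rw [mM_q, mul_pow, D.sgn_q hep, D.pq]
    norm_num at e1 ⊢
    rw [e1, ← mul_assoc, hee]
    ring
  · apply D.inj_q
    rw [mE_q, mul_pow, D.sgn_q hep, D.pq]
    norm_num at e2 ⊢
    rw [e2, ← mul_assoc, hee]
    ring

/-- `mu` and `eta` are fixed by the `q^6`-th power map -/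
lemma Ep_q6 {x s mu eta ep : L} (hx : D.isL x) (hs : D.circ s) (hE : D.Ep x s mu eta ep) :
    mu ^ (D.q ^ 6) = mu ∧ eta ^ (D.q ^ 6) = eta := by
  obtain ⟨hep, h1, h2⟩ := hE
  have hee : ep * ep = 1 := by rcases hep with h | h <;> rw [h] <;> ring
  have hs0 := hs.ne
  have hx0 := hx.ne
  have hx3 : x ^ (D.q ^ 3) ≠ 0 := pow_ne_zero _ hx0
  have hx6 := hx.p6
  have hsi := hs.inv
  have e1 : (mu ^ (D.q ^ 3)) ^ (D.q ^ 3) = ep * ((2 * mu ^ (D.q ^ 3) - D.th * eta ^ (D.q ^ 3)) *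
      ((s ^ (D.q ^ 3)) ^ 2 * x ^ (D.q ^ 3) / x)) := by
    conv_lhs => rw [h1]
    rw [← D.frn_def]
    simp only [map_mul, map_add, map_div₀, map_pow, map_ofNat]
    simp only [D.frn_def, D.th_q3, D.sgn_n hep, D.pp, Nat.reduceAdd]
    rw [hx6]
    ring
  have e2 : (eta ^ (D.q ^ 3)) ^ (D.q ^ 3) = ep * ((2 * eta ^ (D.q ^ 3) - D.th * mu ^ (D.q ^ 3)) *
      ((s ^ (D.q ^ 3)) ^ 2 * x ^ (D.q ^ 3) / x)) := by
    conv_lhs => rw [h2]
    rw [← D.frn_def]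
    simp only [map_mul, map_add, map_div₀, map_pow, map_ofNat]
    simp only [D.frn_def, D.th_q3, D.sgn_n hep, D.pp, Nat.reduceAdd]
    rw [hx6]
    ring
  rw [D.pp] at e1 e2
  simp only [Nat.reduceAdd] at e1 e2
  have hth := D.th2
  have hk : (s ^ 2 * x / x ^ (D.q ^ 3)) * (s⁻¹ ^ 2 * x ^ (D.q ^ 3) / x) = 1 := by
    field_simp
  constructor
  · rw [e1, hsi, h1, h2]
    calc _ = (ep * ep) * ((4 - D.th ^ 2) * mu) *
          ((s ^ 2 * x / x ^ (D.q ^ 3)) * (s⁻¹ ^ 2 * x ^ (D.q ^ 3) / x)) := by ring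
      _ = mu := by rw [hee, hth, hk]; ring
  · rw [e2, hsi, h1, h2]
    calc _ = (ep * ep) * ((4 - D.th ^ 2) * eta) *
          ((s ^ 2 * x / x ^ (D.q ^ 3)) * (s⁻¹ ^ 2 * x ^ (D.q ^ 3) / x)) := by ring
      _ = eta := by rw [hee, hth, hk]; ring

lemma nt_q (s : L) : (D.nt s) ^ D.q = (s ^ (D.q ^ 2))⁻¹ := by
  unfold HD.nt
  rw [inv_pow, D.qq]

lemma circ_q6 {s : L} (hs : D.circ s) : s ^ (D.q ^ 6) = s := by
  have h := hs.inv
  have e1 : (s ^ (D.q ^ 3)) ^ (D.q ^ 3) = s := by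
    rw [h, inv_pow, h, inv_inv]
  rwa [D.pp] at e1

lemma nt_q2 {s : L} (hs : D.circ s) : (D.nt s) ^ (D.q ^ 2) = s := by
  rw [hs.nt, D.pp]
  exact circ_q6 D hs

lemma u_q2 {s : L} (hs : D.circ s) : (s ^ (D.q ^ 2)) ^ (D.q ^ 2) = D.nt s := by
  rw [hs.nt, D.pp]

/-- the `q`-th power of the hats -/
lemma hat1_q {x s mu eta : L} (R0 Z : L) :
    (hat D.th s x (x ^ (D.q ^ 3)) mu eta R0 Z) ^ D.q =
      D.mM x s mu eta * (D.nt s * R0 ^ D.q) + D.mE x s mu eta * Z ^ D.q := by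
  unfold hat HD.mM HD.mE HD.nt
  rw [pow2q, ← D.fr_def]
  simp only [map_mul, map_add, map_div₀, map_pow, map_ofNat]
  simp only [D.fr_def, D.thq, D.qp, Nat.reduceAdd]
  ring

lemma hat2_q {x s mu eta : L} (hx : D.isL x) (hs : s ≠ 0) (R2 Z : L) :
    (hat D.th (D.nt s) (x ^ (D.q ^ 4)) (x ^ D.q) (D.mM x s mu eta) (D.mE x s mu eta) R2 Z) ^ D.q =
      mu ^ (D.q ^ 2) * (s ^ (D.q ^ 2) * R2 ^ D.q) + eta ^ (D.q ^ 2) * Z ^ D.q := by
  unfold hat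
  rw [← D.fr_def]
  simp only [map_mul, map_add, map_div₀, map_pow, map_ofNat]
  simp only [D.fr_def, D.thq, mM_q, mE_q, nt_q, D.qp, D.qq, Nat.reduceAdd]
  have h1 : s ^ (D.q ^ 2) ≠ 0 := pow_ne_zero _ hs
  have h2 : x ^ (D.q ^ 5) ≠ 0 := pow_ne_zero _ hx.ne
  have h3 : x ^ (D.q ^ 2) ≠ 0 := pow_ne_zero _ hx.ne
  have hth := D.th2
  generalize s ^ (D.q ^ 2) = u at *
  generalize x ^ (D.q ^ 5) = x5 at *
  generalize x ^ (D.q ^ 2) = x2 at *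
  generalize mu ^ (D.q ^ 2) = m at *
  generalize eta ^ (D.q ^ 2) = n at *
  generalize R2 ^ D.q = r at *
  generalize Z ^ D.q = z at *
  field_simp
  linear_combination (-(m * u * r) - n * z) * hth

end

theorem T1 : S_T1 := by
  intro L _ _ D x s mu eta e be g rho ep hx hcirc hSg hEp
  have hmm := Ep_mM D hEp
  have h66 := Ep_q6 D hx hcirc hEp
  obtain ⟨-, -, ⟨he, hbe, hg, -, hind, hrel⟩, -, hH, -⟩ := hSg
  have hep := hEp.1
  have hs : s ≠ 0 := hcirc.ne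
  have ht : D.nt s ≠ 0 := inv_ne_zero (pow_ne_zero _ hs)
  have hu : s ^ (D.q ^ 2) ≠ 0 := pow_ne_zero _ hs
  have hee : e * e = 1 := by rcases he with h | h <;> rw [h] <;> ring
  have hpp : ep * ep = 1 := by rcases hep with h | h <;> rw [h] <;> ring
  have hsq : ∀ z : L, z / s ^ D.q = D.nt s * z := fun z => by
    unfold HD.nt
    rw [div_eq_mul_inv, mul_comm]
  have htq : ∀ z : L, z / (D.nt s) ^ D.q = s ^ (D.q ^ 2) * z := fun z => by
    rw [nt_q, div_inv_eq_mul, mul_comm]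
  have hM2 : (D.mM x s mu eta) ^ (D.q ^ 2) = ep * mu := by
    rw [hmm.1, mul_pow, D.sgn_n hep, D.pp]
    rw [show D.q ^ (4 + 2) = D.q ^ 6 from rfl, h66.1]
  have hE2 : (D.mE x s mu eta) ^ (D.q ^ 2) = ep * eta := by
    rw [hmm.2, mul_pow, D.sgn_n hep, D.pp]
    rw [show D.q ^ (4 + 2) = D.q ^ 6 from rfl, h66.2]
  have hM4 : (mu ^ (D.q ^ 2)) ^ (D.q ^ 2) = ep * D.mM x s mu eta := by
    rw [hmm.1, D.pp, ← mul_assoc, hpp, one_mul]
  have hE4 : (eta ^ (D.q ^ 2)) ^ (D.q ^ 2) = ep * D.mE x s mu eta := by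
    rw [hmm.2, D.pp, ← mul_assoc, hpp, one_mul]
  have ht2 := nt_q2 D hcirc
  have hu2 := u_q2 D hcirc
  -- (i)
  have r1 : ∀ P0 P1 P2 Y, OnL x (x ^ (D.q ^ 2)) (x ^ (D.q ^ 4)) (x ^ (D.q ^ 3)) (x ^ (D.q ^ 5))
      (x ^ D.q) P0 P1 P2 Y →
      (mu * (s * P0) + eta * Y) - e * (D.mM x s mu eta * (D.nt s * P2) + D.mE x s mu eta * Y) =
        be * (s * P0 - D.nt s * P2) ∧
      be * ((mu * (s * P0) + eta * Y) +
        e * (D.mM x s mu eta * (D.nt s * P2) + D.mE x s mu eta * Y)) =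
        s * P0 + D.nt s * P2 - D.th * Y - P1 / (s * D.nt s) := by
    intro P0 P1 P2 Y hP
    obtain ⟨a1, a2, -, -⟩ := hrel P0 P1 P2 Y hP
    unfold l1 at a1
    unfold l2 at a2
    rw [eq_div_iff hbe] at a2
    constructor
    · linear_combination a1
    · linear_combination a2
  -- (ii)
  obtain ⟨b, hb⟩ : ∃ b : L, b = -(e * (be / g) ^ D.q) := ⟨_, rfl⟩
  have r2 : ∀ P0 P1 P2 Y, OnL x (x ^ (D.q ^ 2)) (x ^ (D.q ^ 4)) (x ^ (D.q ^ 3)) (x ^ (D.q ^ 5))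
      (x ^ D.q) P0 P1 P2 Y →
      e * (D.mM x s mu eta * (D.nt s * P2) + D.mE x s mu eta * Y) -
        (mu ^ (D.q ^ 2) * (s ^ (D.q ^ 2) * P1) + eta ^ (D.q ^ 2) * Y) =
        b * (D.nt s * P2 - s ^ (D.q ^ 2) * P1) ∧
      b * (e * (D.mM x s mu eta * (D.nt s * P2) + D.mE x s mu eta * Y) +
        (mu ^ (D.q ^ 2) * (s ^ (D.q ^ 2) * P1) + eta ^ (D.q ^ 2) * Y)) =
        D.nt s * P2 + s ^ (D.q ^ 2) * P1 - D.th * Y - P0 / (D.nt s * s ^ (D.q ^ 2)) := by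
    intro P0 P1 P2 Y hP
    obtain ⟨R0, R1, R2, Z, hR, h0, h1, h2, h3⟩ := root1 hx hP
    obtain ⟨a1, a2⟩ := hH R0 R1 R2 Z hR
    have e1 : (m1 s (D.nt s) R0 R2) ^ D.q = D.nt s * P2 - s ^ (D.q ^ 2) * P1 := by
      unfold m1
      rw [D.sub_q, div_pow, div_pow, h0, h2, hsq, htq]
    have e2 : (m2 D.th s (D.nt s) R0 R1 R2 Z) ^ D.q =
        D.nt s * P2 + s ^ (D.q ^ 2) * P1 - D.th * Y - P0 / (D.nt s * s ^ (D.q ^ 2)) := by
      unfold m2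
      rw [D.sub_q, D.add, D.add, div_pow, div_pow, mul_pow, mul_pow, mul_pow, h0, h1, h2, h3, hsq,
        htq, D.thq, nt_q]
      have e3 : s ^ D.q = (D.nt s)⁻¹ := by
        unfold HD.nt
        rw [inv_inv]
      rw [e3]
      field_simp
      ring
    have b1 := congrArg D.fr a1
    have b2 := congrArg D.fr a2
    simp only [map_sub, map_add, map_mul, map_neg] at b1 b2
    simp only [D.fr_def] at b1 b2
    rw [hat1_q, hat2_q D hx hs, D.sgn_q he, h0, h2, h3, e1] at b1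
    rw [hat1_q, hat2_q D hx hs, D.sgn_q he, h0, h2, h3, e2] at b2
    have b3 : (be / g) ^ D.q * (g / be) ^ D.q = 1 := by
      rw [← mul_pow, div_mul_div_cancel₀ hg, div_self hbe, one_pow]
    constructor
    · rw [hb]
      linear_combination e * b1 +
        (mu ^ (D.q ^ 2) * (s ^ (D.q ^ 2) * P1) + eta ^ (D.q ^ 2) * Y) * hee
    · rw [hb]
      linear_combination (-((be / g) ^ D.q)) * b2 - ((be / g) ^ D.q *
        (D.mM x s mu eta * (D.nt s * P2) + D.mE x s mu eta * Y)) * hee +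
        (D.nt s * P2 + s ^ (D.q ^ 2) * P1 - D.th * Y - P0 / (D.nt s * s ^ (D.q ^ 2))) * b3
  -- (iii)
  have r3 : ∀ P0 P1 P2 Y, OnL x (x ^ (D.q ^ 2)) (x ^ (D.q ^ 4)) (x ^ (D.q ^ 3)) (x ^ (D.q ^ 5))
      (x ^ D.q) P0 P1 P2 Y →
      (mu ^ (D.q ^ 2) * (s ^ (D.q ^ 2) * P1) + eta ^ (D.q ^ 2) * Y) -
        e * (ep * (mu * (s * P0) + eta * Y)) =
        be ^ (D.q ^ 2) * (s ^ (D.q ^ 2) * P1 - s * P0) ∧
      be ^ (D.q ^ 2) * ((mu ^ (D.q ^ 2) * (s ^ (D.q ^ 2) * P1) + eta ^ (D.q ^ 2) * Y) +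
        e * (ep * (mu * (s * P0) + eta * Y))) =
        s ^ (D.q ^ 2) * P1 + s * P0 - D.th * Y - P2 / (s ^ (D.q ^ 2) * s) := by
    intro P0 P1 P2 Y hP
    obtain ⟨Q0, Q1, Q2, Z, hQ, h0, h1, h2, h3⟩ := root3 hx hP
    obtain ⟨a1, a2⟩ := r1 Q0 Q1 Q2 Z hQ
    have b1 := congrArg (D.frn 2) a1
    have b2 := congrArg (D.frn 2) a2
    simp only [map_sub, map_add, map_mul, map_div₀] at b1 b2
    simp only [D.frn_def, D.sgn_n he, h0, h1, h2, h3, hM2, hE2, ht2, D.th_q2] at b1 b2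
    constructor
    · linear_combination b1
    · linear_combination b2
  -- (iv)
  have hb2 : b ^ (D.q ^ 2) = e * ep * be := by
    have h := hind (b ^ (D.q ^ 2) - e * ep * be) 0 (fun P0 P1 P2 Y hP => by
      obtain ⟨Q0, Q1, Q2, Z, hQ, h0, h1, h2, h3⟩ := root3 hx hP
      obtain ⟨a1, -⟩ := r2 Q0 Q1 Q2 Z hQ
      obtain ⟨c1, -⟩ := r1 P0 P1 P2 Y hP
      have b1 := congrArg (D.frn 2) a1
      simp only [map_sub, map_add, map_mul] at b1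
      simp only [D.frn_def, D.sgn_n he, h0, h1, h2, h3, hM2, hE2, ht2, hu2, hM4, hE4] at b1
      unfold l1
      linear_combination (-1 : L) * b1 + (e * ep) * c1 + (ep * (D.mM x s mu eta *
        (D.nt s * P2) + D.mE x s mu eta * Y)) * hee)
    exact sub_eq_zero.1 h.1
  have hne : ∃ P0 P1 P2 Y, OnL x (x ^ (D.q ^ 2)) (x ^ (D.q ^ 4)) (x ^ (D.q ^ 3)) (x ^ (D.q ^ 5))
      (x ^ D.q) P0 P1 P2 Y ∧ D.nt s * P2 - s ^ (D.q ^ 2) * P1 ≠ 0 := by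
    by_contra hcon
    push Not at hcon
    have h := hind 1 0 (fun P0 P1 P2 Y hP => by
      obtain ⟨Q0, Q1, Q2, Z, hQ, h0, h1, h2, h3⟩ := root3 hx hP
      have a1 := hcon Q0 Q1 Q2 Z hQ
      have b1 := congrArg (D.frn 2) a1
      simp only [map_sub, map_mul, map_zero] at b1
      simp only [D.frn_def, h0, h1, h2, h3, ht2, hu2] at b1
      unfold l1
      linear_combination b1)
    exact one_ne_zero h.1
  have hb4 : (be ^ (D.q ^ 2)) ^ (D.q ^ 2) = e * ep * b := by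
    obtain ⟨P0, P1, P2, Y, hP, hne⟩ := hne
    obtain ⟨Q0, Q1, Q2, Z, hQ, h0, h1, h2, h3⟩ := root3 hx hP
    obtain ⟨a1, -⟩ := r3 Q0 Q1 Q2 Z hQ
    obtain ⟨c1, -⟩ := r2 P0 P1 P2 Y hP
    have b1 := congrArg (D.frn 2) a1
    simp only [map_sub, map_add, map_mul] at b1
    simp only [D.frn_def, D.sgn_n he, D.sgn_n hep, h0, h1, h2, h3, hu2, hM4, hE4] at b1
    have h : ((be ^ (D.q ^ 2)) ^ (D.q ^ 2) - e * ep * b) *
        (D.nt s * P2 - s ^ (D.q ^ 2) * P1) = 0 := by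
      linear_combination (-1 : L) * b1 + (e * ep) * c1 - (ep * (D.mM x s mu eta *
        (D.nt s * P2) + D.mE x s mu eta * Y)) * hee
    exact sub_eq_zero.1 ((mul_eq_zero.1 h).resolve_right hne)
  refine ⟨?_, b, hb2, hb4, ?_⟩
  · apply D.inj_q
    rw [D.pq]
    rw [D.pp] at hb4
    simp only [Nat.reduceAdd] at hb4 ⊢
    rw [hb4, hb, show -ep * be / g = -ep * (be / g) by ring, mul_pow, D.neg_q, D.sgn_q hep]
    linear_combination (-(ep * (be / g) ^ D.q)) * hee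
  · intro P0 P1 P2 Y hP
    obtain ⟨a1, a2⟩ := r1 P0 P1 P2 Y hP
    obtain ⟨b1, b2⟩ := r2 P0 P1 P2 Y hP
    obtain ⟨c1, c2⟩ := r3 P0 P1 P2 Y hP
    have d1 : s ^ (D.q ^ 2) * P1 / (s * D.nt s * s ^ (D.q ^ 2)) = P1 / (s * D.nt s) := by
      field_simp
    have d2 : s * P0 / (s * D.nt s * s ^ (D.q ^ 2)) = P0 / (D.nt s * s ^ (D.q ^ 2)) := by
      field_simp
    have d3 : D.nt s * P2 / (s * D.nt s * s ^ (D.q ^ 2)) = P2 / (s ^ (D.q ^ 2) * s) := by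
      field_simp
    rw [d1, d2, d3]
    refine ⟨?_, ?_, ?_, ?_, ?_, ?_⟩
    · linear_combination a1
    · linear_combination a2
    · linear_combination b1
    · linear_combination b2
    · linear_combination c1
    · linear_combination c2

end Pool.Agent.TH9.J3865
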